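import Pool.Agent.MWFE.StmtsC
import Pool.Agent.Helper89_MWE.FPR

/-!
# Squad MWFE (MP_23468a_al), row FPZ: projections of the big words
-/

set_option autoImplicit false

namespace Pool.Agent.MWFE.H92

open Pool.Agent.Helper14_MV Pool.Agent.Helper2_MV Pool.Agent.MVD
open Pool.Agent.MWE (Can XX fxy dxy dx dy up cp cl L4 pr Xs xl isx Fs nd nr)
open Pool.Agent.MWGR (cb)
open Pool.Agent.MWE.H89

theorem ctx {β : FIC} {u v : List ℕ} (h : RR β u v) (p q : List ℕ) :
    RR β (p ++ (u ++ q)) (p ++ (v ++ q)) :=
  RR.append (RR.refl p) (RR.append h (RR.refl q))

theorem bw_rr {β : FIC} (R : List ℕ) (B B' : ℕ → List ℕ) (h : ∀ r ∈ R, RR β (B r) (B' r)) :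
    RR β (Bw R B) (Bw R B') := by
  induction R with
  | nil => exact RR.refl _
  | cons r R ih =>
    have e : ∀ C : ℕ → List ℕ, Bw (r :: R) C = (C r ++ [3 * r + 2]) ++ Bw R C := fun C => rfl
    rw [e, e]
    exact RR.append (RR.append (h r List.mem_cons_self) (RR.refl _))
      (ih fun r' hr' => h r' (List.mem_cons_of_mem _ hr'))

theorem pr_hk {i j k k' m : ℕ} (hk' : k' < 3) :
    pr i j k (hk m k') = if k' = k then [3 * m + 1] else [] := by
  unfold hk pr
  rw [if_neg (by omega), if_pos (by omega)]
  have e1 : (3 * (3 * m + k') + 1) / 3 = 3 * m + k' := by omega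
  have e2 : (3 * m + k') % 3 = k' := by omega
  have e3 : (3 * m + k') / 3 = m := by omega
  rw [e1, e2, e3]

theorem rep_fm {i j k k' m : ℕ} (hk' : k' < 3) (e : ℕ) :
    (List.replicate e (hk m k')).flatMap (pr i j k) =
      if k' = k then List.replicate e (3 * m + 1) else [] := by
  induction e with
  | zero => simp
  | succ e ih =>
    rw [List.replicate_succ, List.flatMap_cons, ih, pr_hk hk']
    by_cases h : k' = k
    · simp only [if_pos h]
      rw [List.replicate_succ]
      rfl
    · simp only [if_neg h]
      rfl

theorem t4_fm {n m i j k l : ℕ} (hkk : k < 3) (hl : l < 4) :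
    (T4 n m l).flatMap (pr i j k) = List.replicate (n + if k < l then 1 else 0) (3 * m + 1) ++
      ((if l = i then [0] else if l = j then [3] else []) ++
        List.replicate (2 * n - if k < l then 1 else 0) (3 * m + 1)) := by
  unfold T4
  have key : ∀ E : ℕ → ℕ, ((List.range 3).flatMap
      (fun k' => List.replicate (E k') (hk m k'))).flatMap (pr i j k) =
      List.replicate (E k) (3 * m + 1) := by
    intro E
    have e : List.range 3 = [0, 1, 2] := rfl
    rw [e, List.flatMap_cons, List.flatMap_cons, List.flatMap_cons, List.flatMap_nil,
      List.flatMap_append, List.flatMap_append, List.flatMap_append, List.flatMap_nil,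
      rep_fm (by omega), rep_fm (by omega), rep_fm (by omega)]
    have : k = 0 ∨ k = 1 ∨ k = 2 := by omega
    rcases this with h | h | h <;> subst h <;> simp
  rw [List.flatMap_append, List.flatMap_cons,
    key (fun k' => n + if k' < l then 1 else 0),
    key (fun k' => 2 * n - if k' < l then 1 else 0), pr_x i j k l hl]

/-- inserted powers of `z` -/
theorem ins {n : ℕ} {β : FIC} (hp : ∀ (p q : List ℕ) (v a b : ℕ), a ≡ b [MOD n] →
    2 ≤ a → 2 ≤ b → RR β (p ++ (List.replicate a v ++ q)) (p ++ (List.replicate b v ++ q)))
    (hn : 2 ≤ n) (m i j k : ℕ) (hik : i ≤ k) (hkj : k < j) (s : List ℕ) :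
    ∀ (p q : List ℕ) (a : ℕ), 2 ≤ a →
      RR β (p ++ (List.replicate a (3 * m + 1) ++ (s.flatMap (fun l =>
        List.replicate (n + if k < l then 1 else 0) (3 * m + 1) ++
      ((if l = i then [0] else if l = j then [3] else []) ++
        List.replicate (2 * n - if k < l then 1 else 0) (3 * m + 1))) ++ q)))
        (p ++ (List.replicate a (3 * m + 1) ++ (KZ n (3 * m + 1) (Xs i j s) ++ q))) := by
  induction s with
  | nil => intro p q a _; exact RR.refl _
  | cons l s ih =>
    intro p q a ha
    rw [List.flatMap_cons]
    have eX : Xs i j (l :: s) = (if l = i then [0] else if l = j then [3] else []) ++ Xs i j s :=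
      rfl
    rw [eX]
    have eK : ∀ X Y : List ℕ, KZ n (3 * m + 1) (X ++ Y) = KZ n (3 * m + 1) X ++
        KZ n (3 * m + 1) Y := by
      intro X Y
      unfold KZ
      exact List.flatMap_append
    rw [eK]
    by_cases h1 : l = i
    · rw [if_pos h1, if_neg (by omega)]
      have e0 : KZ n (3 * m + 1) [0] = List.replicate (n + 0) (3 * m + 1) ++
          ([0] ++ List.replicate (2 * n - 0) (3 * m + 1)) := by
        unfold KZ tk lam
        simp
      rw [e0]
      have := ih (p ++ (List.replicate a (3 * m + 1) ++ (List.replicate (n + 0) (3 * m + 1) ++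
        [0]))) q (2 * n - 0) (by omega)
      simpa only [List.append_assoc] using this
    · by_cases h2 : l = j
      · rw [if_neg h1, if_pos h2, if_pos (by omega)]
        have e0 : KZ n (3 * m + 1) [3] = List.replicate (n + 1) (3 * m + 1) ++
            ([3] ++ List.replicate (2 * n - 1) (3 * m + 1)) := by
          unfold KZ tk lam
          simp
        rw [e0]
        have := ih (p ++ (List.replicate a (3 * m + 1) ++ (List.replicate (n + 1) (3 * m + 1) ++
          [3]))) q (2 * n - 1) (by omega)
        simpa only [List.append_assoc] using this
      · rw [if_neg h1, if_neg h2]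
        have e0 : KZ n (3 * m + 1) [] = [] := rfl
        rw [e0, List.nil_append, List.nil_append]
        obtain ⟨e, he, he'⟩ : ∃ e, (if k < l then 1 else 0) = e ∧ e ≤ 1 := by
          by_cases h : k < l
          · exact ⟨1, if_pos h, le_refl _⟩
          · exact ⟨0, if_neg h, by omega⟩
        rw [he]
        have e1 : List.replicate a (3 * m + 1) ++ ((List.replicate (n + e) (3 * m + 1) ++
            List.replicate (2 * n - e) (3 * m + 1)) ++ (s.flatMap (fun l =>
        List.replicate (n + if k < l then 1 else 0) (3 * m + 1) ++
      ((if l = i then [0] else if l = j then [3] else []) ++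
        List.replicate (2 * n - if k < l then 1 else 0) (3 * m + 1))) ++ q)) =
            List.replicate (a + 3 * n) (3 * m + 1) ++ (s.flatMap (fun l =>
        List.replicate (n + if k < l then 1 else 0) (3 * m + 1) ++
      ((if l = i then [0] else if l = j then [3] else []) ++
        List.replicate (2 * n - if k < l then 1 else 0) (3 * m + 1))) ++ q) := by
          rw [← List.append_assoc, List.replicate_append_replicate,
            List.replicate_append_replicate]
          congr 2
          omega
        rw [List.append_assoc (List.replicate (n + e) (3 * m + 1) ++ _)] 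
        rw [e1]
        have h3 := ih p q (a + 3 * n) (by omega)
        have h4 := hp p (KZ n (3 * m + 1) (Xs i j s) ++ q) (3 * m + 1) (a + 3 * n) a
          (by
            have : 3 * n = n * 3 := by ring
            rw [this]
            exact Nat.ModEq.symm (by simp [Nat.ModEq])) (by omega) ha
        exact β.trans h3 h4

theorem lam_le (v : ℕ) : lam v ≤ 1 := by
  unfold lam
  split_ifs <;> omega

theorem kz_cons (n z v : ℕ) (X : List ℕ) : KZ n z (v :: X) = List.replicate (n + lam v) z ++
    (v :: (List.replicate (2 * n - lam v) z ++ KZ n z X)) := by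
  unfold KZ tk
  rw [List.flatMap_cons, List.append_assoc, List.cons_append]

theorem kz_snoc (n z v : ℕ) (X : List ℕ) : KZ n z (X ++ [v]) = (KZ n z X ++
    (List.replicate (n + lam v) z ++ [v])) ++ (List.replicate (2 * n - lam v) z ++ []) := by
  unfold KZ tk
  rw [List.flatMap_append, List.flatMap_singleton]
  simp

theorem absorb {n : ℕ} {β : FIC} (hp : ∀ (p q : List ℕ) (v a b : ℕ), a ≡ b [MOD n] →
    2 ≤ a → 2 ≤ b → RR β (p ++ (List.replicate a v ++ q)) (p ++ (List.replicate b v ++ q)))
    (hn : 2 ≤ n) (z : ℕ) (X : List ℕ) (hX : X ≠ []) :
    RR β (List.replicate n z ++ (KZ n z X ++ List.replicate n z)) (KZ n z X) := by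
  have h1 : RR β (KZ n z X ++ List.replicate n z) (KZ n z X) := by
    obtain ⟨Y, w, rfl⟩ : ∃ Y w, X = Y ++ [w] :=
      ⟨X.dropLast, X.getLast hX, (List.dropLast_append_getLast hX).symm⟩
    have hw := lam_le w
    have e1 : KZ n z (Y ++ [w]) ++ List.replicate n z = (KZ n z Y ++
        (List.replicate (n + lam w) z ++ [w])) ++ (List.replicate (2 * n - lam w + n) z ++ []) := by
      rw [kz_snoc, List.append_nil, List.append_nil, List.append_assoc,
        List.replicate_append_replicate]
    rw [e1, kz_snoc]
    exact hp _ _ _ _ _ (by simp [Nat.ModEq]) (by omega) (by omega)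
  have h2 : RR β (List.replicate n z ++ KZ n z X) (KZ n z X) := by
    obtain ⟨w, Y, rfl⟩ := List.exists_cons_of_ne_nil hX
    have e1 : List.replicate n z ++ KZ n z (w :: Y) = [] ++ (List.replicate (n + lam w + n) z ++
        (w :: (List.replicate (2 * n - lam w) z ++ KZ n z Y))) := by
      rw [kz_cons, List.nil_append, ← List.append_assoc, List.replicate_append_replicate]
      congr 2
      omega
    have e2 : KZ n z (w :: Y) = [] ++ (List.replicate (n + lam w) z ++
        (w :: (List.replicate (2 * n - lam w) z ++ KZ n z Y))) := by
      rw [kz_cons, List.nil_append]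
    rw [e1, e2]
    exact hp _ _ _ _ _ (by simp [Nat.ModEq]) (by omega) (by omega)
  exact β.trans (RR.append (RR.refl _) h1) h2

theorem count_bw_one {R : List ℕ} (B : ℕ → List ℕ) {r a : ℕ} (h : r ∈ R) :
    (B r).count a ≤ (Bw R B).count a := by
  have e : (Bw R B).count a = (R.map (fun t => (B t ++ [3 * t + 2]).count a)).sum := by
    unfold Bw
    rw [List.count_flatMap]
    rfl
  rw [e]
  have h1 : (B r).count a ≤ (B r ++ [3 * r + 2]).count a := by
    rw [List.count_append]
    omega
  exact h1.trans (List.single_le_sum (fun x _ => Nat.zero_le x) _ (List.mem_map.2 ⟨r, h, rfl⟩))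

theorem fpz (hpwl : PwlStmt) : FpzStmt := by
  intro n β m R c s hz hc hR hs
  have hn := hz.n2
  have hp := hpwl n β hz
  have hnd : R.Nodup := hR.nodup_iff.2 List.nodup_range
  have hs4 : ∀ a ∈ s, a < 4 := by
    intro a ha
    have := hs.mem_iff.1 ha
    simp only [List.mem_cons, List.not_mem_nil, or_false] at this
    omega
  have hmem : ∀ r, r ∈ R ↔ r < m + 2 := by
    intro r
    rw [hR.mem_iff, List.mem_range]
  refine ⟨?_, ?_, ?_⟩
  · intro i k j hik hkj hj
    unfold ExZ Eg
    apply bw_rr
    intro r hr
    by_cases h0 : r = 0
    · subst h0
      simp only [if_true, pz, up, Bq]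
      have e1 : (s.flatMap (T4 n m)).flatMap (pr i j k) = s.flatMap (fun l =>
          List.replicate (n + if k < l then 1 else 0) (3 * m + 1) ++
        ((if l = i then [0] else if l = j then [3] else []) ++
          List.replicate (2 * n - if k < l then 1 else 0) (3 * m + 1))) := by
        rw [List.flatMap_assoc]
        exact fm_congr fun l hl => t4_fm (by omega) (hs4 l hl)
      rw [e1]
      have h1 := ins hp hn m i j k hik hkj s [] (List.replicate n (3 * m + 1)) n hn
      rw [List.nil_append, List.nil_append] at h1
      have hX : Xs i j s ≠ [] := by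
        intro h
        have : (0 : ℕ) ∈ Xs i j s := by
          unfold Xs
          rw [List.mem_flatMap]
          refine ⟨i, hs.mem_iff.2 ?_, by rw [if_pos rfl]; exact List.mem_singleton.2 rfl⟩
          have : i = 0 ∨ i = 1 ∨ i = 2 := by omega
          rcases this with h | h | h <;> subst h <;> simp
        rw [h] at this
        exact absurd this List.not_mem_nil
      exact RR.symm (β.trans h1 (absorb hp hn _ _ hX))
    · by_cases h1 : r = 1
      · subst h1
        simp only [pz, up, Bq, if_neg h0, if_true]
        rw [l4_fm hc hik hkj hj]
        exact RR.refl _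
      · simp only [pz, up, Bq, if_neg h0, if_neg h1]
        rw [z3_fm i j (by omega)]
        exact RR.refl _
  · intro a ha h2
    obtain ⟨B, hB⟩ : ∃ B : ℕ → List ℕ, B = Bq n m s c := ⟨_, rfl⟩
    have hF : FqZ n m R s c = Bw R B := by rw [hB]; rfl
    have h0R : 0 ∈ R := (hmem 0).2 (by omega)
    have h1R : 1 ∈ R := (hmem 1).2 (by omega)
    have B0 : B 0 = s.flatMap (T4 n m) := by rw [hB]; rfl
    have B1 : B 1 = L4 c := by rw [hB]; rfl
    have Br : ∀ r, r ≠ 0 → r ≠ 1 → B r = Z3 r := by
      intro r h0 h1
      rw [hB]
      simp only [Bq, if_neg h0, if_neg h1]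
    have two : ∀ r r', r ∈ R → r' ∈ R → r ≠ r' → a ∈ B r → a ∈ B r' →
        2 ≤ (FqZ n m R s c).count a := by
      intro r r' hr hr' hne h1 h2
      have h3 := count_bw_two B hnd (a := a) hr hr' hne
      have h4 := List.count_pos_iff.2 h1
      have h5 := List.count_pos_iff.2 h2
      rw [hF]
      omega
    have hx1 : ∀ i < 4, 3 * i ∈ L4 c := by
      intro i hi
      unfold L4
      interval_cases i <;> simp
    have hx0 : ∀ i < 4, 3 * i ∈ B 0 := by
      intro i hi
      rw [B0]
      refine List.mem_flatMap.2 ⟨i, hs.mem_iff.2 ?_, ?_⟩
      · interval_cases i <;> simp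
      · unfold T4
        exact List.mem_append_right _ List.mem_cons_self
    rw [hF] at ha
    unfold Bw at ha
    obtain ⟨r, hr, har⟩ := List.mem_flatMap.1 ha
    have har' : a ∈ B r := by
      rcases List.mem_append.1 har with h | h
      · exact h
      · rw [List.mem_singleton] at h
        omega
    by_cases hr0 : r = 0
    · subst hr0
      have h3 := har'
      rw [B0] at h3
      obtain ⟨l, hl, hal⟩ := List.mem_flatMap.1 h3
      have hrep : ∀ k' < 3, a = hk m k' → 2 ≤ (FqZ n m R s c).count a := by
        intro k' hk' hak
        have hz0 : (0 : ℕ) ∈ s := hs.mem_iff.2 (by simp)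
        have c1 : 2 ≤ (T4 n m 0).count a := by
          unfold T4
          rw [List.count_append]
          have : 2 ≤ ((List.range 3).flatMap (fun k => List.replicate
              (n + if k < 0 then 1 else 0) (hk m k))).count a := by
            have hsub : (List.replicate n a).Sublist ((List.range 3).flatMap
                (fun k => List.replicate (n + if k < 0 then 1 else 0) (hk m k))) := by
              have e : List.range 3 = [0, 1, 2] := rfl
              rw [e, List.flatMap_cons, List.flatMap_cons, List.flatMap_cons, List.flatMap_nil]
              rw [hak]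
              have : k' = 0 ∨ k' = 1 ∨ k' = 2 := by omega
              rcases this with h | h | h <;> subst h
              · exact List.sublist_append_left _ _
              · exact (List.sublist_append_left _ _).trans (List.sublist_append_right _ _)
              · exact ((List.sublist_append_left _ _).trans
                  (List.sublist_append_right _ _)).trans (List.sublist_append_right _ _)
            have := hsub.count_le a
            rw [List.count_replicate_self] at this
            omega
          omega
        have c2 : (T4 n m 0).count a ≤ (B 0).count a := by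
          rw [B0]
          obtain ⟨s1, s2, rfl⟩ := List.append_of_mem hz0
          rw [List.flatMap_append, List.flatMap_cons, List.count_append, List.count_append]
          omega
        have c3 := count_bw_one B (a := a) h0R
        rw [hF]
        omega
      unfold T4 at hal
      rw [List.mem_append, List.mem_cons] at hal
      rcases hal with h | h | h
      · obtain ⟨k', hk', h⟩ := List.mem_flatMap.1 h
        exact hrep k' (List.mem_range.1 hk') (List.mem_replicate.1 h).2
      · rw [h] at har' ⊢
        have := two 0 1 h0R h1R (by omega)
        rw [h] at this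
        exact this har' (by rw [B1]; exact hx1 l (hs4 l hl))
      · obtain ⟨k', hk', h⟩ := List.mem_flatMap.1 h
        exact hrep k' (List.mem_range.1 hk') (List.mem_replicate.1 h).2
    by_cases hr1 : r = 1
    · subst hr1
      have h3 := har'
      rw [B1] at h3
      have hcp : ∀ k < 3, a ∈ cp k c → 2 ≤ (FqZ n m R s c).count a := by
        intro k hk hak
        unfold cp at hak
        obtain ⟨u, hu, rfl⟩ := List.mem_map.1 hak
        rcases hc.lo u hu with ⟨d, hd, rfl⟩ | ⟨h4, h5, h6⟩
        · refine two 1 (d + 2) h1R ((hmem _).2 (by omega)) (by omega) har' ?_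
          rw [Br (d + 2) (by omega) (by omega)]
          have e : cl k (3 * d + 1) = 3 * (3 * d + k) + 1 := by
            unfold cl
            rw [if_pos (by omega)]
            have : (3 * d + 1) / 3 = d := by omega
            rw [this]
          rw [e]
          unfold Z3
          have e2 : d + 2 - 2 = d := by omega
          rw [e2]
          interval_cases k <;> simp
        · have h7 : 2 ≤ (cp k c).count (cl k u) := by
            unfold cp
            exact h6.trans (List.count_le_count_map ..)
          have h8 : (cp k c).count (cl k u) ≤ (L4 c).count (cl k u) := by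
            refine List.Sublist.count_le _ ?_
            unfold L4
            interval_cases k
            · exact (List.sublist_append_left _ _).trans (List.sublist_cons_self _ _)
            · refine List.Sublist.trans ?_ (List.sublist_cons_self _ _)
              refine List.Sublist.trans ?_ (List.sublist_append_right _ _)
              refine List.Sublist.trans ?_ (List.sublist_cons_self _ _)
              exact List.sublist_append_left _ _
            · refine List.Sublist.trans ?_ (List.sublist_cons_self _ _)
              refine List.Sublist.trans ?_ (List.sublist_append_right _ _)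
              refine List.Sublist.trans ?_ (List.sublist_cons_self _ _)
              refine List.Sublist.trans ?_ (List.sublist_append_right _ _)
              refine List.Sublist.trans ?_ (List.sublist_cons_self _ _)
              exact List.sublist_append_left _ _
          have h9 := count_bw_one B (a := cl k u) h1R
          rw [B1] at h9
          rw [hF]
          omega
      unfold L4 at h3
      simp only [List.mem_cons, List.mem_append, List.not_mem_nil, or_false] at h3
      rcases h3 with h | h | h | h | h | h | h
      · subst h
        exact two 0 1 h0R h1R (by omega) (hx0 0 (by omega)) har'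
      · exact hcp 0 (by omega) h
      · subst h
        exact two 0 1 h0R h1R (by omega) (hx0 1 (by omega)) har'
      · exact hcp 1 (by omega) h
      · subst h
        exact two 0 1 h0R h1R (by omega) (hx0 2 (by omega)) har'
      · exact hcp 2 (by omega) h
      · subst h
        exact two 0 1 h0R h1R (by omega) (hx0 3 (by omega)) har'
    · have hrm := (hmem r).1 hr
      have h3 := har'
      rw [Br r hr0 hr1] at h3
      have hlight : 3 * (r - 2) + 1 ∈ c := by
        have := hc.li (r - 2) (by omega)
        exact List.count_pos_iff.1 (by omega)
      have hcl : ∀ t < 3, cl t (3 * (r - 2) + 1) = 3 * (3 * (r - 2) + t) + 1 := by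
        intro t _
        unfold cl
        rw [if_pos (by omega)]
        have : (3 * (r - 2) + 1) / 3 = r - 2 := by omega
        rw [this]
      have hin : ∀ t < 3, 3 * (3 * (r - 2) + t) + 1 ∈ cp t c := by
        intro t ht
        unfold cp
        exact List.mem_map.2 ⟨_, hlight, hcl t ht⟩
      refine two r 1 hr h1R hr1 har' ?_
      rw [B1]
      unfold Z3 at h3
      simp only [List.mem_cons, List.not_mem_nil, or_false] at h3
      unfold L4
      simp only [List.mem_cons, List.mem_append]
      rcases h3 with h | h | h
      · have : 3 * (3 * (r - 2)) + 1 ∈ cp 0 c := hin 0 (by omega)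
        rw [← h] at this
        exact Or.inr (Or.inl this)
      · have := hin 1 (by omega)
        rw [← h] at this
        exact Or.inr (Or.inr (Or.inr (Or.inl this)))
      · have := hin 2 (by omega)
        rw [← h] at this
        exact Or.inr (Or.inr (Or.inr (Or.inr (Or.inr (Or.inl this)))))
  · intro r a ha
    unfold Bq at ha
    split_ifs at ha with h0 h1
    · obtain ⟨l, hl, hal⟩ := List.mem_flatMap.1 ha
      unfold T4 at hal
      rw [List.mem_append, List.mem_cons] at hal
      rcases hal with h | h | h
      · obtain ⟨k', hk', h⟩ := List.mem_flatMap.1 h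
        rw [(List.mem_replicate.1 h).2]
        unfold hk
        omega
      · omega
      · obtain ⟨k', hk', h⟩ := List.mem_flatMap.1 h
        rw [(List.mem_replicate.1 h).2]
        unfold hk
        omega
    · have hcp : ∀ k, a ∈ cp k c → a % 3 ≠ 2 := by
        intro k hak
        unfold cp at hak
        obtain ⟨u, hu, rfl⟩ := List.mem_map.1 hak
        unfold cl
        split_ifs <;> omega
      unfold L4 at ha
      simp only [List.mem_cons, List.mem_append, List.not_mem_nil, or_false] at ha
      rcases ha with h | h | h | h | h | h | h
      · omega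
      · exact hcp 0 h
      · omega
      · exact hcp 1 h
      · omega
      · exact hcp 2 h
      · omega
    · unfold Z3 at ha
      simp only [List.mem_cons, List.not_mem_nil, or_false] at ha
      omega

end Pool.Agent.MWFE.H92
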